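import Pool.Agent.H7.GV.Stmts

/-!
# Cliques with `5 ≤ t < ω` vertices, residues up to the threshold: statements of the board `gy`

`b = p + 3 = ω - 1`, `u = w + 2 = t - 1 ≥ 4`, `Δ = (p + 3) a + r`, `PrY p w r`: `2 ≤ w ≤ p`,
`w + 2 ≤ r ≤ p`, `2 r b ≤ (b-1)(u-1)(b-r)` and `(u+1) r^(u-1) ≤ b^(u-1)`. THEOREM: for large `a` the
Turán graph with `(p + 4) a + r` vertices and `p + 4` parts has the most cliques with `w + 3` vertices per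
vertex. Same definitions and rows as `gu8`, `gv9` (`LMB0`, `SIZ0`, `XGR0`, `GCO0`, `GLD0`, `CCK0`, `XSP0`,
`ZYG`, `PRF`, `SPL`, `PHB`, `NET9`). Rows GCY, NYA, NYB, PRG, NDMY are new; every other row `XXXY` is the
row `XXX` of `gu8` or `XXX9` of `gv9` with the changes said in its docstring: copy the file and change
the numbers. Row `XXXY` = `def XXXYStmt : Prop`; file `Pool/Agent/H<k>/GY/XXXY.lean`, `import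
Pool.Agent.H7.GY.Stmts`, namespace `Pool.GY7`, `open Pool.Agent.H23.KT Pool.Agent.H46.KW Pool.KQ Pool.GT7
Pool.GU7 Pool.GV7`. Notation: `c₁ = choose (p+2) (w+1)`, `ρ = r/b`, `y = (1 + 3 ρ)/4 = (b + 3 r)/(4 b)`.
-/

set_option autoImplicit false

open Finset

namespace Pool.GY7

open Pool.Agent.H23.KT Pool.Agent.H46.KW Pool.KQ Pool.GT7 Pool.GU7 Pool.GV7

/-- The conditions of the theorem. -/
structure PrY (p w r : ℕ) : Prop where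
  w2 : 2 ≤ w
  wp : w ≤ p
  rw : w + 2 ≤ r
  rp : r ≤ p
  R1 : 2 * r * (p + 3) ≤ (p + 2) * ((w + 1) * (p + 3 - r))
  R3 : (w + 3) * r ^ (w + 1) ≤ (p + 3) ^ (w + 1)

/-- `y = (b + 3 r)/(4 b)`. -/
noncomputable def yY (p r : ℕ) : ℝ := ((p : ℝ) + 3 + 3 * r) / (4 * ((p : ℝ) + 3))

/-- The slope of the bound on codegrees, `(b - 1) y`. -/
noncomputable def mY (p r : ℕ) : ℝ := ((p : ℝ) + 2) * yY p r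

/-- `1 - (1 - 1/u)^(u-1)`. -/
noncomputable def GY (w : ℕ) : ℝ := 1 - (1 - 1 / ((w : ℝ) + 2)) ^ (w + 1)

/-- `y + (1 + 1/(8 b^2))/(b - 1)`. -/
noncomputable def kY (p r : ℕ) : ℝ := (mY p r + 1 + 1 / (8 * ((p : ℝ) + 3) ^ 2)) / ((p : ℝ) + 2)

/-! ### Numbers -/

/-- (GCY) PROOF. (0) is in the hypotheses. `(r-1-i)/(p+2-i) ≤ (r-1)/(p+2) < r/(p+3)` for `i < r - 1`, so
`(w+3) choose (r-1) (w+1) < c₁` from `R3` (`choose (r-1) (w+1) * (p+3)^(w+1) < r^(w+1) c₁`). As in GC8 (3), GC9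
(3): for `B ≤ r - 1`: `ww = 0`, `choose B (w+1) ≤ choose (r-1) (w+1)`, the slack is `≥ 1`; for `r ≤ B ≤ p + 1`, `q = B + 1`:
`F q = c₁ (q + u b (q-r)/(b-r)) - u (u+1) choose q u` is concave, `F b = 0`, `F r = r (c₁ - (u+1) choose (r-1) (u-1))
≥ r ≥ 1`, so `F q/q ≥ (b-q)/(b-r) r/q ≥ 1/b^2`. -/
def GCYStmt : Prop :=
  ∀ p w r : ℕ, PrY p w r → Pr0 p w r ∧
    (∀ B ≤ p + 1, ((w : ℝ) + 3) * B.choose (w + 1) + 1 / (4 * ((p : ℝ) + 3) ^ 2) ≤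
      (p + 2).choose (w + 1) * (1 + ((w : ℝ) + 2) * ww p r B))

/-- (NYA) `u = w + 2`. PROOF. `u = 4`: `5 ρ^3 ≤ 1` gives `ρ ≤ 0.5849` (`5 · 0.5849^3 > 1`), `y ≤ 0.68868`, `y^4 ≤
0.2250`. `u = 5`: `6 ρ^4 ≤ 1`, `ρ ≤ 0.6390`, `y ≤ 0.72925`, `y^5 ≤ 0.2063`. `u = 6`: `7 ρ^5 ≤ 1`, `ρ ≤ 0.6777`, `y ≤
0.75828`, `y^6 ≤ 0.1902`. `u ≥ 7`: `ρ ≤ 1 - 2/u`, because `(u+1)(1-2/u)^(u-1) > 1`: `u = 7, 8, 9` numerically (`8 (5/7)^6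
= 1.06`), `u ≥ 10`: `(1-2/u)^(u-1) = (1 + 2/(u-2))^(-(u-1)) ≥ exp (-2(u-1)/(u-2)) ≥ exp (-9/4) ≥ 1/10`. So `y ≤ 1 -
3/(2u)`, `y^u ≤ exp (-3/2) ≤ 0.2232`. -/
def NYAStmt : Prop := ∀ p w r : ℕ, PrY p w r → yY p r ^ (w + 2) ≤ 23 / 100

/-- (NYB) `u = w + 2`, `k = kY = y + (1 + 1/(8b^2))/(b-1)`, `G = GY w = 1 - (1-1/u)^(u-1)`. PROOF. `r ≥ u`.
`u = 4` (`G = 37/64 = 0.578`): `5 r^3 ≤ b^3`, `r ≥ 4` give `b ≥ 7`; `b = 7`: `r = 4`, against `R1` (`56 ≤ 54`); `b = 8`: `r = 4`,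
`y = 0.625`, `k ≤ 0.7682`, `k^3 ≤ 0.454`; `b ≥ 9`: `y ≤ 0.68868` (see NYA), `k ≤ 0.8139`, `k^3 ≤ 0.5393`. `u = 5` (`G =
0.5904`): `6 · 5^4 = 3750 ≤ b^4`, `b ≥ 8`, `k ≤ 0.72925 + (1+1/512)/7 ≤ 0.8724`, `k^4 ≤ 0.5793`. `u = 6` (`G ≥ 0.598`): `7 · 6^5 =
54432 ≤ b^5`, `b ≥ 9`, `k ≤ 0.75828 + 0.1252 ≤ 0.8835`, `k^5 ≤ 0.5384`. `u ≥ 7`: `ρ ≤ 1 - 2/u` (NYA), `u ≤ r ≤ (1-2/u) b`, so
`b ≥ u^2/(u-2) > u + 2`, `b - 1 ≥ u + 2`, `k ≤ 1 - 3/(2u) + 1/(u+2) + 1/(8 (u+3)^2 (u+2))`. `u = 7, 8`: numerically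
(`0.521 < 0.603`, `0.528 < 0.607`). `u ≥ 9`: `k^(u-1) ≤ exp (-(u-1)(1/2 u + 3)/(u (u+2)) + 1/(8 (u+3)^2)) ≤ exp (-1/2)
≤ 0.6066` (`(u-1)(u/2+3) = (u^2+2u)/2 + (3/2)u - 3`), and `G = 1 - (1 + 1/n)^(-n)`, `n = u - 1 ≥ 8`, `(1+1/n)^n ≥ (9/8)^8 ≥
2.56` (increasing in `n`), `G ≥ 0.609`. -/
def NYBStmt : Prop := ∀ p w r : ℕ, PrY p w r → kY p r ^ (w + 1) < GY w

/-- (NUBY) As `NUBStmt` / `NUB9Stmt`, split at `n = Δ/u`. `b = p + 3`, `j = w + 1 = u - 1`, `ã = a + r/b = Δ/b`,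
`x = Δ - n`. PROOF. (1) `u n ≤ Δ`: `x ≥ (1-1/u) b ã`, `x/b ≥ (1-1/u) ã`: `x (ã^j - (x/b)^j) = x (n/b) ∑_(i<j) ã^(j-1-i)
(x/b)^i ≥ (1-1/u) n ã^j ∑_(i<j) (1-1/u)^i = n ã^j (u-1)(1 - (1-1/u)^j) = (w+1) GY n ã^j`, then `a^j ≥ ã^j - ..` as there.
(2) `u n ≥ Δ`: `x/b ≤ (1-1/u) ã`, `ã^j ≤ (1 + K/a) a^j`. -/
def NUBYStmt : Prop :=
  ∀ p w r : ℕ, ∃ K : ℝ, 0 < K ∧ ∀ g : ℝ, g < GY w → ∃ a₀ : ℕ, ∀ a ≥ a₀, ∀ n : ℕ,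
    n ≤ (p + 3) * a + r →
    (((w + 2) * n ≤ (p + 3) * a + r →
      (n : ℝ) * ((w : ℝ) + 1) * (GY w * (a : ℝ) ^ (w + 1)) ≤
        ((((p + 3) * a + r : ℕ) : ℝ) - n) * ((a : ℝ) ^ (w + 1) -
          (((((p + 3) * a + r : ℕ) : ℝ) - n) / ((p : ℝ) + 3)) ^ (w + 1)) + K * (a : ℝ) ^ (w + 1)) ∧
    ((p + 3) * a + r ≤ (w + 2) * n →
      g * (a : ℝ) ^ (w + 1) ≤
        (a : ℝ) ^ (w + 1) -
          (((((p + 3) * a + r : ℕ) : ℝ) - n) / ((p : ℝ) + 3)) ^ (w + 1)))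

/-! ### The profile -/

/-- (PRG) The mean of `1/(B+1)`, `B = (nb G L z).card`. Needs TRV, NMS (`Pool.KR.NMSStmt`).
PROOF. `b = p + 3`, `n_i = card (nb G (P i) z)`, `n_z = ∑ n_i`. The sum over `clq G (un P) (p+3)` is (TRV) a sum over
`trv G P ⊆ piFinset P`, terms `≥ 0`, `B = #{i : f i ∈ N(z)}`. `∑_(f ∈ piFinset P) s^B = ∏_i (card (P i) - n_i (1-s))`, so
`∑_f 1/(B+1) = ∫_0^1 ∏_i (card (P i) - n_i (1-s)) ds`. NMS: `k0` with `n_(k0) ≤ ζ a`. The factor of `k0` is `≤ (1+e) a`;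
the other `b - 1` factors are `≥ 0`, by the inequality between the means (`Real.geom_mean_le_arith_mean_weighted`
or `Real.inner_le...`; `AMGStmt` of the board `kq` with `x i = x j` terms dropped gives it too) their product is
`≤ ((1+e) a - (n_z - n_(k0))(1-s)/(b-1))^(b-1) ≤ ((1+e) a)^(b-1) (1 - x' (1-s))^(b-1)`, `x' = (n_z - ζ a)/((1+e)(b-1) a) ∈
(0, 1]`, and `∫_0^1 (1 - x'(1-s))^(b-1) ds = (1 - (1-x')^b)/(b x') ≤ 1/(b x')`. Total `≤ ((1+e) a)^b/(b x') ≤ a^b (1/(b x) + ε)`,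
`x = n_z/((b-1) a) ≥ y₀`, for `e`, `ζ` small (depending on `ε`, `y₀`, `p`). -/
def PRGStmt : Prop :=
  ∀ (p : ℕ) (ε y₀ : ℝ), 0 < ε → 0 < y₀ → ∃ e₀ : ℝ, 0 < e₀ ∧ ∀ C : ℝ, ∃ a₀ : ℕ, ∀ a ≥ a₀,
    ∀ {V : Type} [DecidableEq V] (G : SimpleGraph V) (e : ℝ) (W : Finset V)
    (P : Fin (p + 3) → Finset V) (U : Finset V), Str G p a e C W P U → 0 ≤ e → e ≤ e₀ →
    CB G W (p + 3) → ∀ z ∈ U, y₀ * (((p : ℝ) + 2) * a) ≤ ((nb G (un P) z).card : ℝ) →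
    ∑ L ∈ clq G (un P) (p + 3), 1 / (((nb G L z).card : ℝ) + 1) ≤
      (a : ℝ) ^ (p + 3) * (((p : ℝ) + 2) * a / (((p : ℝ) + 3) * (nb G (un P) z).card) + ε)

/-- (NDMY) A vertex with many neighbours owes nothing. Needs NYA, PRG, PRF (1), (7), ZYG, CCK0 (1), GCO0.
PROOF. `b = p + 3`, `u = w + 2`, `x = n_z/((b-1) a) ≥ y = yY`. `ww p r B ≥ (b/(b-r))(1 - r/(B+1))` for all `B ≤ b - 1` (equality if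
`B + 1 ≥ r`, the right side is `≤ 0` otherwise). So `T ≥ (b/(b-r))(N - r ∑_L 1/(B+1)) ≥ a^b [(b/(b-r))(1 - r/(b x)) - K ε]`
(PRG with `y₀ = y`, PRF (1)). ZYG for `nb G (un P) z` (`CB .. (p+2)`): `κ ≤ c₁ (n_z/(p+2))^(w+1) = c₁ x^(u-1) a^(w+1)`. `h x = (b-r) x^u -
b x + r` is convex, `h 1 = 0`, and `-h y = (b-r)(1/4 - y^u) ≥ (b-r)/50` (`b (1-y) = (3/4)(b-r)`; NYA). PRF (7): `x ≤ 1 - δ`, `δ =
e1/(8(b-1))`; convexity between `y` and `1`: `-h x ≥ ((1-x)/(1-y)) (-h y) ≥ δ (b-r)/50`. So `T/a^b - x^(u-1) ≥ -h x/((b-r) x) - K ε ≥ δ/50 -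
K ε ≥ δ/100` for `ε` small, and `et T/a^b ≤ 2 et ≤ δ/200` (`et ≤ e1/(1024 b^3)`, `b ≥ 7`). Hence `x^(u-1) ≤ (1 - et) T/a^b`:
`κ ≤ (1-et) c₁ a^(w+1) T/a^b` and `nd = 0`. -/
def NDMYStmt : Prop :=
  ∀ p w r : ℕ, PrY p w r → ∃ e₀ : ℝ, 0 < e₀ ∧ ∀ C : ℝ, ∃ a₀ : ℕ, ∀ a ≥ a₀,
    ∀ {V : Type} [DecidableEq V] (G : SimpleGraph V) (e : ℝ) (W : Finset V)
    (P : Fin (p + 3) → Finset V) (U : Finset V), Str G p a e C W P U → 0 ≤ e → e ≤ e₀ →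
    CB G W (p + 3) → ∀ z ∈ U, mY p r * a ≤ ((nb G (un P) z).card : ℝ) →
    nd G p w r a (un P) z = 0

/-- (NDBY) As `NDBStmt` / `NDB9Stmt` with `mY` and the constant `1/(32 b^3)`: `#{B = p+2} ≤ (y + ε) a^b`, `1 - y =
(3/4)(b-r)/b ≥ 2/b`, so `#{B ≤ p+1} ≥ a^b/b` and the gain is `(1/(4b^2))(1/b)`; `(w+2) et c₁ T ≤ a^b/(16 b^3)`.
Needs GCY, PRF, CCK0 (1), GCO0. -/
def NDBYStmt : Prop :=
  ∀ p w r : ℕ, PrY p w r → ∃ e₀ : ℝ, 0 < e₀ ∧ ∀ C : ℝ, ∃ a₀ : ℕ, ∀ a ≥ a₀,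
    ∀ {V : Type} [DecidableEq V] (G : SimpleGraph V) (e : ℝ) (W : Finset V)
    (P : Fin (p + 3) → Finset V) (U : Finset V), Str G p a e C W P U → 0 ≤ e → e ≤ e₀ →
    CB G W (p + 3) → ∀ z ∈ U, ((nb G (un P) z).card : ℝ) ≤ mY p r * a →
    0 < nd G p w r a (un P) z →
    ((w : ℝ) + 2) * nd G p w r a (un P) z + kc G (nb G (un P) z) (w + 1) ≤
      ((p + 2).choose (w + 1) - 1 / (32 * ((p : ℝ) + 3) ^ 3)) * (a : ℝ) ^ (w + 1)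

/-- (BDAY) As `BDAStmt` / `BDA9Stmt` with NUBY. Needs SPL, NUBY, NYB, ZYG, TTR (3). `g = (kY^(w+1) + GY)/2 < GY`. PROOF.
`κ v ≤ c₁ ((mY a + C)/(p+2))^(w+1) ≤ c₁ GY a^(w+1)` for `a` large (`mY/(p+2) < kY`); case `(w+2) n ≤ D`: SPL (1), NUBY (1); case
`(w+2) n > D`: SPL (2), NUBY (2), for `y ∈ Y`: `card (nb G W y) ≤ (mY + 1 + 2 b e1) a + C + r = (p+2) kY a + C + r`, `κ y ≤ c₁ g
a^(w+1)` for `a` large. -/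
def BDAYStmt : Prop :=
  ∀ p w r : ℕ, PrY p w r → ∃ K : ℝ, 0 < K ∧ ∀ δ C : ℝ, 0 < δ → ∃ a₀ : ℕ, ∀ a ≥ a₀,
    ∀ {V : Type} [Fintype V] [DecidableEq V] (G : SimpleGraph V), G8 G p r a →
    ∀ (z : V) (A : Finset V), A ⊆ nb G univ z →
    (∀ v ∈ A, ∃ (e : ℝ) (P : Fin (p + 3) → Finset V) (U : Finset V),
      Str G p a e C (nb G univ v) P U ∧ 0 ≤ e ∧ e ≤ e1 p ∧
      ((Pool.KR.co G v z).card : ℝ) ≤ mY p r * a + C) →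
    ∑ v ∈ A, ((p + 2).choose (w + 1) * (a : ℝ) ^ (w + 1) -
      (kc G (Pool.KR.co G v z) (w + 1) : ℝ)) ≤
      ((w : ℝ) + 2) * df G p w r a (nb G univ z) + K * (a : ℝ) ^ (w + 1) +
        δ * A.card * (a : ℝ) ^ (w + 1)

/-- (BUDY) As `BUDStmt` / `BUD9Stmt`, `s₁ = 1/(32 b^3)`. Needs NDMY, NDBY, BDAY (`n_z < mY a` gives
`card (co G v z) ≤ mY a + C`). -/
def BUDYStmt : Prop :=
  ∀ p w r : ℕ, PrY p w r → ∀ C₀ : ℝ, 0 < C₀ → ∃ C₂ : ℝ, 0 < C₂ ∧ ∃ e₀ : ℝ, 0 < e₀ ∧ e₀ ≤ e1 p ∧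
    ∀ C : ℝ, ∃ a₀ : ℕ, ∀ a ≥ a₀,
    ∀ {V : Type} [Fintype V] [DecidableEq V] (G : SimpleGraph V), G8 G p r a →
    ∀ (e : ℝ), 0 ≤ e → e ≤ e₀ → ∀ (z : V) (A : Finset V)
    (P : V → Fin (p + 3) → Finset V) (U : V → Finset V), A ⊆ nb G univ z →
    (∀ v ∈ A, Str G p a e C (nb G univ v) (P v) (U v) ∧ z ∈ U v) →
    C₂ * (a : ℝ) ^ (w + 1) ≤ df G p w r a (nb G univ z) →
    ∑ v ∈ A, nd G p w r a (un (P v)) z ≤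
      df G p w r a (nb G univ z) - C₀ * (a : ℝ) ^ (w + 1)

/-- (GGPY) As `GGPStmt` (`b ≥ r + 3 ≥ 7`). Needs STG. -/
def GGPYStmt : Prop :=
  ∀ p w r : ℕ, PrY p w r → ∃ e₀ : ℝ, 0 < e₀ ∧ e₀ ≤ e1 p ∧ ∀ (C : ℝ) (C₁ : ℕ), ∃ a₀ : ℕ,
    ∀ a ≥ a₀, ∀ {V : Type} [Fintype V] [DecidableEq V] (G : SimpleGraph V), G8 G p r a →
    ∀ (e : ℝ), 0 ≤ e → e ≤ e₀ → ∀ (v z : V) (P P' : Fin (p + 3) → Finset V) (U U' : Finset V),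
    Str G p a e C (nb G univ v) P U → Str G p a e C (nb G univ z) P' U' → z ∈ U →
    a ^ (p + 4) ≤ (a + C₁) * kc G (nb G univ z) (p + 3) →
    Pool.KR.co G v z ⊆ U ∪ U' ∧ v ∈ U'

/-- (PAYY) As `PAY9Stmt`. -/
def PAYYStmt : Prop :=
  ∀ p w r : ℕ, PrY p w r → ∀ C : ℝ, 0 < C → ∃ a₀ : ℕ, ∀ a ≥ a₀,
    ∀ {V : Type} [Fintype V] [DecidableEq V] (G : SimpleGraph V) (Gd : Finset V)
    (P : V → Fin (p + 3) → Finset V) (U : V → Finset V),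
    (∀ v ∈ Gd, un (P v) ⊆ nb G univ v ∧ ((U v).card : ℝ) ≤ C) →
    (∀ v ∈ Gd, ∀ z ∈ U v, 0 ≤ TZ G p r (un (P v)) z) →
    (∀ v ∈ Gd, ∀ z ∈ Gd, z ∈ U v → Pool.KR.co G v z ⊆ U v ∪ U z ∧ v ∈ U z) →
    ∑ v ∈ Gd, ∑ z ∈ (U v).filter (fun z => z ∈ Gd), nd G p w r a (un (P v)) z ≤
      ∑ v ∈ Gd, (2 * ((p + 1).choose (w + 1) : ℝ) - 1) * ((U v).card.choose 2 : ℝ) *
        (a : ℝ) ^ w

/-- (KUY) As `KU0Stmt` / `KU9Stmt`: `choose (r-1) w ≤ choose (p-1) w ≤ (1 - 2/(p+1)) choose (p+1) w`, and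
`(1 - 2/(p+1))(1 + 1/(16 b)) ≤ 1`. Needs DBL, GCO0, CCK0 (1), TRV. -/
def KUYStmt : Prop :=
  ∀ {V : Type} [DecidableEq V] (G : SimpleGraph V) (p w r a : ℕ) (e C : ℝ) (W : Finset V)
    (P : Fin (p + 3) → Finset V) (U : Finset V), PrY p w r → Str G p a e C W P U → 0 ≤ e →
    e ≤ e1 p / 2 → CB G W (p + 3) → ∀ z ∈ U,
    (kc G (nb G (un P) z) w : ℝ) * (a : ℝ) ^ (p + 3) ≤
      (a : ℝ) ^ w * (((p + 1).choose w + 1 / 4) * (a : ℝ) ^ (p + 3) +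
        2 ^ (p + 4) * ((p : ℝ) + 3) * TZ G p r (un P) z)

/-- (LIPY) As `LIPStmt` / `LIP9Stmt`. Needs CCK0, KUY, DKU, DML, XSP0, NET9, SIZ0, XGR0, LMB0, GCO0, GCY. -/
def LIPYStmt : Prop :=
  ∀ p w r : ℕ, PrY p w r → ∃ e₀ : ℝ, 0 < e₀ ∧ ∀ e : ℝ, 0 < e → e ≤ e₀ → ∀ C : ℝ, 0 < C →
    ∃ a₀ : ℕ, ∀ a ≥ a₀, ∀ {V : Type} [DecidableEq V] (G : SimpleGraph V) (W : Finset V)
    (P : Fin (p + 3) → Finset V) (U : Finset V), Str G p a e C W P U → CB G W (p + 3) →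
    W.card ≤ (p + 3) * a + r →
    Ph G p w r a W + (2 * ((p + 1).choose (w + 1) : ℝ) - 1) * (U.card.choose 2 : ℝ) *
      (a : ℝ) ^ w ≤ df G p w r a W + ∑ z ∈ U, nd G p w r a (un P) z

/-- (SUMY) As `SUM8Stmt` / `SUM9Stmt`. Needs PHB, BUDY, LIPY, GGPY, PAYY, STC, MMC, CCK0, TTR (3), GCY. -/
def SUMYStmt : Prop :=
  ∀ p w r : ℕ, PrY p w r → ∃ a₀ : ℕ, ∀ a ≥ a₀, ∀ {V : Type} [Fintype V] [DecidableEq V]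
    (G : SimpleGraph V), G8 G p r a →
    ∑ v, Ph G p w r a (nb G univ v) ≤ ∑ v, df G p w r a (nb G univ v)

/-- (FNY) The theorem. Needs SUMY, GLD0, TCT, GCY. -/
def FNYStmt : Prop :=
  ∀ p w r : ℕ, PrY p w r → ∃ a₀ : ℕ, ∀ a ≥ a₀, ∀ (m : ℕ) (H : SimpleGraph (Fin m)),
    (∀ v, (H.neighborSet v).ncard ≤ (p + 3) * a + r) → H.CliqueFree (p + 5) →
      {s : Finset (Fin m) | H.IsNClique (w + 3) s}.ncard * ((p + 4) * a + r) ≤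
        {s : Finset (Fin ((p + 4) * a + r)) |
          (SimpleGraph.turanGraph ((p + 4) * a + r) (p + 4)).IsNClique (w + 3) s}.ncard * m

end Pool.GY7
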